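import Pool.Agent.L0h3.SP.SELJ

/-!
# Project SP (helper94), part COR (helper3): the twist with Selmer group of given size
-/

set_option autoImplicit false
set_option linter.all false

open Polynomial IsDedekindDomain NumberField
open scoped Classical

namespace Pool.Agent.L0h3.SP

open Pool.Agent.N352.PJ (Mt Typ dd)
open Pool.Agent.N783.PQ (LocIm Mid Deep Gap)
open Pool.Agent.N874.PP (Ev Sq1 U0)
open Pool.Agent.N874.JM (LocF)
open Pool.Agent.N783.PF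
open Pool.Agent.L0h94.SP

theorem LBad_mono {F : Type} [Field F] [NumberField F] {g N c c' : ℕ} {S : Finset ℕ}
    {𝔮 : ℕ → Ideal (𝓞 F)} {P : ℕ → (𝓞 F)[X]} {f : (𝓞 F)[X]} (hc : c ≤ c')
    (H : LBad g N c S 𝔮 P f) : LBad g N c' S 𝔮 P f := by
  obtain ⟨h1, w, h2, h3, h4, A, B, ⟨hb, hcon, hd⟩, hch⟩ := H
  refine ⟨h1, w, h2, h3, ?_, A, B, ⟨⟨hb.sA, hb.sB, ?_, hb.tr, ?_, hb.bB⟩, hcon, hd⟩, hch⟩
  · rcases h4 with h4 | h4
    · exact Or.inl h4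
    · right
      unfold Deep at h4 ⊢
      have : (c : ℤ) ≤ c' := by exact_mod_cast hc
      linarith
  · obtain ⟨x, hx0, hx1, hx2⟩ := hb.det
    exact ⟨x, hx0, hx1, hx2.trans (Nat.pow_le_pow_right (by norm_num) hc)⟩
  · intro i j σ
    refine (hb.bA i j σ).trans ?_
    refine zpow_le_zpow_right₀ (by norm_num) ?_
    have : (c : ℤ) ≤ c' := by exact_mod_cast hc
    linarith

theorem t_COR (hLAMJ : S_LAMJ) (hSELJ : S_SELJ) (hSQF : S_SQF) (hIRR : S_IRR) (hGEN : S_GEN)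
    (hMIN : S_MIN) (hEXQ : S_EXQ) : S_COR := by
  intro F _ _ a
  obtain ⟨M, κ0, K0, κf, hM, H⟩ := hLAMJ F a
  obtain ⟨κs, hκs⟩ := hSQF 1 F le_rfl
  refine ⟨M, max κ0 κs, max K0 κs, κf, hM, ?_⟩
  intro f f₁ B W T 𝔮 r P hK hf₁ hBlk hTne hGF hB
  obtain ⟨N, hN, hnb⟩ := hGF.sq
  have hN0 : 2 ^ κ0 * B ≤ 4 ^ N :=
    (Nat.mul_le_mul_right _ (Nat.pow_le_pow_right (by norm_num) (le_max_left _ _))).trans hN
  have hNs : 2 ^ κs * B ≤ 4 ^ N :=
    (Nat.mul_le_mul_right _ (Nat.pow_le_pow_right (by norm_num) (le_max_right _ _))).trans hN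
  have hnb0 : ¬ LBad 1 N κ0 (sup T M) 𝔮 P f := fun h => hnb (LBad_mono (le_max_left _ _) h)
  have hnbs : ¬ LBad 1 N κs (sup T M) 𝔮 P f := fun h => hnb (LBad_mono (le_max_right _ _) h)
  have hGF' : GF B W M κ0 κf f₁ T 𝔮 P f := ⟨hGF.fam, ⟨N, hN0, hnb0⟩, hGF.cls⟩
  have hF := hGF.fam
  have hm := hF.ht.mon
  have hd := hF.ht.deg
  have hS := hBlk.good
  have hirr : Irreducible (fF f) := hIRR F 1 W f₁ f hf₁ hF.one hm hd
  have hsq : SqF 1 f := hκs B N W f₁ (sup T M) 𝔮 r P f ((le_max_right _ _).trans hK) hf₁ hS hF hirr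
    hNs hB hnbs
  obtain ⟨L, _, _, _, θ, hc⟩ := hGEN F 1 f hm hd hirr
  have hcg := cgq hS hF.con
  -- the big primes
  have hex : ∀ q ∈ sup T M, ∃ 𝔓 : HeightOneSpectrum (𝓞 L), Ov (𝔮 q) 𝔓 ∧ 𝔓.valuation L θ = 1 := by
    intro q hq
    obtain ⟨𝔓₁, 𝔓₂, a1, a2, a3, a4, a5, a6, a7⟩ :=
      hEXQ 1 W F L f θ (sup T M) 𝔮 r P le_rfl hc hsq hS q hq (hcg q hq)
    exact ⟨𝔓₂, a2, a4⟩
  haveI hne : Nonempty (HeightOneSpectrum (𝓞 L)) := by
    obtain ⟨m, hm⟩ := Ideal.exists_maximal (𝓞 L)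
    exact ⟨⟨m, hm.isPrime, Ring.ne_bot_of_isMaximal_of_not_isField hm
      (NumberField.RingOfIntegers.not_isField L)⟩⟩
  obtain ⟨𝔔, h𝔔⟩ : ∃ 𝔔 : ℕ → HeightOneSpectrum (𝓞 L), 𝔔 = fun q =>
    if hq : q ∈ sup T M then (hex q hq).choose else Classical.arbitrary _ := ⟨_, rfl⟩
  have hQ : BigQ θ (sup T M) 𝔮 𝔔 := by
    intro q hq
    have h := (hex q hq).choose_spec
    rw [h𝔔]
    simp only [dif_pos hq]
    exact h
  obtain ⟨J, hJ, R, hR1, hR2, hR3, hR4⟩ := H L f f₁ θ B W T 𝔮 r P ((le_max_left _ _).trans hK) hc hsq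
    hf₁ hBlk hTne hGF' hB 𝔔 hQ
  refine ⟨J, hJ, ?_⟩
  have hqp : ∀ q ∈ sup T M, q.Prime := fun q hq => (hS q hq).1
  have hD0 : Dp J ≠ 0 := by
    rw [Dp, Finset.prod_ne_zero_iff]
    exact fun q hq => (hqp q (hJ hq)).ne_zero
  have hirrD : Irreducible (fF (f.scaleRoots ((Dp J : ℕ) : 𝓞 F))) := by
    rw [fF_scale hc.mon]
    exact irr_scale (Nat.cast_ne_zero.2 hD0) hirr
  have hmin := hMIN 1 W F (sup T M) J 𝔮 r P f le_rfl hS hsq hm hd hF.con hJ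
  refine ⟨hirrD, ?_, hmin⟩
  obtain ⟨hroot, e, he⟩ := adj hc hirrD
  have hsel := hSELJ W F L f f₁ θ (sup T M) J 𝔮 r P hc hsq hf₁ hS hF.one hF.con hJ 𝔔 hQ
  have hsurj : ∀ β : L, ∃ h : F[X], aeval ((Dp J : L) * θ) h = β := by
    intro β
    obtain ⟨p, hp⟩ := AdjoinRoot.mk_surjective (e.symm β)
    refine ⟨p, ?_⟩
    rw [← he, hp, AlgEquiv.apply_symm_apply]
  choose φ hφ using hsurj
  have hsquare : ∀ p : F[X], IsSquare (AdjoinRoot.mk (fF (f.scaleRoots ((Dp J : ℕ) : 𝓞 F))) p) ↔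
      IsSquare (aeval ((Dp J : L) * θ) p) := by
    intro p
    constructor
    · rintro ⟨y, hy⟩
      exact ⟨e y, by rw [← he, hy, map_mul]⟩
    · rintro ⟨y, hy⟩
      refine ⟨e.symm y, ?_⟩
      apply e.injective
      rw [he, hy, map_mul, AlgEquiv.apply_symm_apply]
  have hinj : Function.Injective φ := fun x y hxy => by rw [← hφ x, ← hφ y, hxy]
  refine ⟨R.image φ, ?_, ?_, ?_, ?_⟩
  · rw [Finset.card_image_of_injective R hinj, hR1]
  · intro h hh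
    rw [Finset.mem_image] at hh
    obtain ⟨β, hβ, rfl⟩ := hh
    have h1 := hR2 β hβ
    refine (hsel (φ β) ?_).2 ?_
    · rw [hφ]
      exact h1.1.1
    · rw [hφ]
      exact h1
  · intro h hh h' hh' hne'
    rw [Finset.mem_image] at hh hh'
    obtain ⟨β, hβ, rfl⟩ := hh
    obtain ⟨β', hβ', rfl⟩ := hh'
    rw [hsquare, map_mul, hφ, hφ]
    exact hR3 β hβ β' hβ' fun h => hne' (by rw [h])
  · intro h hh
    have hne' : aeval ((Dp J : L) * θ) h ≠ 0 := by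
      intro h0
      obtain ⟨u, v, huv⟩ := hh.1
      have := congrArg (aeval ((Dp J : L) * θ)) huv
      rw [map_add, map_mul, map_mul, hroot, h0, mul_zero, mul_zero, add_zero, map_one] at this
      exact zero_ne_one this
    obtain ⟨k1, k2⟩ := (hsel h hne').1 hh
    obtain ⟨β, hβ, hs⟩ := hR4 _ k1 k2
    refine ⟨φ β, Finset.mem_image_of_mem _ hβ, ?_⟩
    rw [hsquare, map_mul, hφ]
    exact hs

end Pool.Agent.L0h3.SP
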