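import Pool.Agent.L0h94.SP.StmE

/-!
# Project SP (helper94), part SELJ (helper3): the Selmer group of the twist
-/

set_option autoImplicit false
set_option linter.all false

open Polynomial IsDedekindDomain NumberField
open scoped Classical

namespace Pool.Agent.L0h3.SP

open Pool.Agent.N352.PJ (Mt Typ dd)
open Pool.Agent.N783.PQ (LocIm)
open Pool.Agent.N874.PP (Ev Sq1 U0)
open Pool.Agent.N874.JM (LocF)
open Pool.Agent.N783.PF
open Pool.Agent.L0h94.SP

theorem cl_congr {K : Type} [Field K] {f h h' : K[X]} (H : Cl K f h) (hd : f ∣ h' - h) : Cl K f h' := by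
  obtain ⟨l, s, h1, h2⟩ := H
  refine ⟨l, s, h1, ?_⟩
  have e : h' * (l.map fun p => C p.1 - X).prod - s ^ 2 =
      (h * (l.map fun p => C p.1 - X).prod - s ^ 2) + (h' - h) * (l.map fun p => C p.1 - X).prod := by ring
  rw [e]
  exact dvd_add h2 (dvd_mul_of_dvd_left hd _)

variable {F : Type} [Field F] [NumberField F]

theorem cgq {g W : ℕ} {f : (𝓞 F)[X]} {S : Finset ℕ} {𝔮 : ℕ → Ideal (𝓞 F)}
    {r P : ℕ → (𝓞 F)[X]} (hS : GoodS g W S 𝔮 r P) (hcon : ∀ q ∈ S, Cg (sp F q) f (P q)) :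
    ∀ q ∈ S, Cg (𝔮 q) f (X * r q) := by
  intro q hq j
  obtain ⟨-, -, -, -, -, -, hmem, -, -, -, -, -, -, hcg, -⟩ := hS q hq
  have h1 := hcon q hq j
  have h2 : sp F q ≤ 𝔮 q := by
    rw [sp, Ideal.span_singleton_le_iff_mem]
    exact hmem
  have h3 := Ideal.add_mem _ (h2 h1) (hcg j)
  have e : f.coeff j - (X * r q).coeff j =
      f.coeff j - (P q).coeff j + ((P q).coeff j - (X * r q).coeff j) := by ring
  rw [e]
  exact h3

theorem irr_scale {K : Type} [Field K] {p : K[X]} {D : K} (hD : D ≠ 0) (hp : Irreducible p) :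
    Irreducible (p.scaleRoots D) := by
  have hp0 : p.scaleRoots D ≠ 0 := scaleRoots_ne_zero hp.ne_zero D
  constructor
  · intro hu
    apply hp.not_isUnit
    rw [isUnit_iff_degree_eq_zero] at hu ⊢
    rwa [degree_scaleRoots] at hu
  · intro a b hab
    have h1 : p = a.scaleRoots D⁻¹ * b.scaleRoots D⁻¹ := by
      rw [← mul_scaleRoots_of_noZeroDivisors, ← hab, ← scaleRoots_mul, mul_inv_cancel₀ hD,
        scaleRoots_one]
    rcases hp.isUnit_or_isUnit h1 with h | h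
    · left
      rw [isUnit_iff_degree_eq_zero] at h ⊢
      rwa [degree_scaleRoots] at h
    · right
      rw [isUnit_iff_degree_eq_zero] at h ⊢
      rwa [degree_scaleRoots] at h

theorem fF_scale {f : (𝓞 F)[X]} (hm : f.Monic) (D : ℕ) :
    fF (f.scaleRoots (D : 𝓞 F)) = (fF f).scaleRoots (D : F) := by
  unfold fF
  rw [map_scaleRoots]
  · rw [map_natCast]
  · rw [hm.leadingCoeff, map_one]
    exact one_ne_zero

/-- the field `L` is generated by `D θ` -/
theorem adj {L : Type} [Field L] [NumberField L] [Algebra F L] {g : ℕ} {f : (𝓞 F)[X]} {θ : L}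
    (hc : IsGen g f θ) {D : ℕ} (hirr : Irreducible (fF (f.scaleRoots (D : 𝓞 F)))) :
    aeval ((D : L) * θ) (fF (f.scaleRoots (D : 𝓞 F))) = 0 ∧
    ∃ e : AdjoinRoot (fF (f.scaleRoots (D : 𝓞 F))) ≃ₐ[F] L, ∀ p : F[X],
      e (AdjoinRoot.mk (fF (f.scaleRoots (D : 𝓞 F))) p) = aeval ((D : L) * θ) p := by
  have hm := hc.mon
  have hd := hc.deg
  have hmD : (f.scaleRoots (D : 𝓞 F)).Monic := (monic_scaleRoots_iff (D : 𝓞 F)).2 hm
  obtain ⟨F', hF'⟩ : ∃ F' : F[X], F' = fF (f.scaleRoots (D : 𝓞 F)) := ⟨_, rfl⟩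
  obtain ⟨Θ, hΘ⟩ : ∃ Θ : L, Θ = (D : L) * θ := ⟨_, rfl⟩
  have hroot : aeval Θ F' = 0 := by
    have e1 := scaleRoots_eval₂_mul (p := fF f) (algebraMap F L) θ (D : F)
    have e2 : eval₂ (algebraMap F L) θ (fF f) = 0 := by
      rw [← aeval_def]
      exact hc.root
    rw [e2, mul_zero, map_natCast] at e1
    rw [hF', fF_scale hm, aeval_def, hΘ]
    exact e1
  have hmF' : F'.Monic := by
    rw [hF']
    exact hmD.map _
  have hdF' : F'.natDegree = 2 * g + 1 := by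
    rw [hF', fF, hmD.natDegree_map, natDegree_scaleRoots, hd]
  rw [← hF'] at hirr ⊢
  rw [← hΘ]
  refine ⟨hroot, ?_⟩
  haveI hfact' : Fact (Irreducible F') := ⟨hirr⟩
  obtain ⟨φ, hφ⟩ : ∃ φ : AdjoinRoot F' →ₐ[F] L, φ = AdjoinRoot.liftAlgHom F' (Algebra.ofId F _) Θ hroot :=
    ⟨_, rfl⟩
  have hφmk : ∀ p : F[X], φ (AdjoinRoot.mk F' p) = aeval Θ p := by
    intro p
    have h1 := AdjoinRoot.liftAlgHom_mk F' (Algebra.ofId F L) Θ hroot p
    rw [Algebra.toRingHom_ofId, ← Polynomial.aeval_def] at h1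
    rw [hφ]
    exact h1
  have hφinj : Function.Injective φ := φ.toRingHom.injective
  haveI : FiniteDimensional F (AdjoinRoot F') := hmF'.finite_adjoinRoot
  haveI : FiniteDimensional F L := Module.finite_of_finrank_pos (by rw [hc.rank]; omega)
  have hrk : Module.finrank F (AdjoinRoot F') = Module.finrank F L := by
    rw [hc.rank, (AdjoinRoot.powerBasis hmF'.ne_zero).finrank, AdjoinRoot.powerBasis_dim, hdF']
  have hφsurj : Function.Surjective φ :=
    (LinearMap.injective_iff_surjective_of_finrank_eq_finrank (f := φ.toLinearMap) hrk).1 hφinj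
  exact ⟨AlgEquiv.ofBijective φ ⟨hφinj, hφsurj⟩, fun p => hφmk p⟩

theorem one_mem {L : Type} [Field L] [NumberField L] {q q' : ℕ} (hq : q.Prime) (hq' : q'.Prime)
    (hne : q ≠ q') {𝔓 : HeightOneSpectrum (𝓞 L)} (h1 : (q : 𝓞 L) ∈ 𝔓.asIdeal)
    (h2 : (q' : 𝓞 L) ∈ 𝔓.asIdeal) : False := by
  have hco : Nat.Coprime q q' := (Nat.coprime_primes hq hq').2 hne
  have h3 : IsCoprime (q : ℤ) (q' : ℤ) := Nat.isCoprime_iff_coprime.2 hco
  obtain ⟨a, b, hab⟩ := h3
  apply 𝔓.isPrime.ne_top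
  rw [Ideal.eq_top_iff_one]
  have h4 : (1 : 𝓞 L) = (a : 𝓞 L) * (q : 𝓞 L) + (b : 𝓞 L) * (q' : 𝓞 L) := by
    have := congrArg (fun z : ℤ => (z : 𝓞 L)) hab
    push_cast at this
    exact this.symm
  rw [h4]
  exact Ideal.add_mem _ (Ideal.mul_mem_left _ _ h1) (Ideal.mul_mem_left _ _ h2)

theorem t_SELJ (hLOC : S_LOC) (hCLL : S_CLL) (hGPX : S_GPX) (hSPX : S_SPX) (hCLW : S_CLW)
    (hTR2 : S_TR2) (hEXQ : S_EXQ) (hIRR : S_IRR) : S_SELJ := by
  intro W F L _ _ _ _ _ f f₁ θ S J 𝔮 r P hc hsq hf₁ hS hW hcon hJ 𝔔 hQ h hne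
  have hcg := cgq hS hcon
  have hqp : ∀ q ∈ S, q.Prime := fun q hq => (hS q hq).1
  have hD0 : Dp J ≠ 0 := by
    rw [Dp, Finset.prod_ne_zero_iff]
    exact fun q hq => (hqp q (hJ hq)).ne_zero
  have hD8 : Dp J % 8 = 1 := by
    rw [Dp, Finset.prod_nat_mod, Finset.prod_congr rfl (fun q hq => (hS q (hJ hq)).2.2.2.1)]
    simp
  have hirr : Irreducible (fF f) := hIRR F 1 W f₁ f hf₁ hW hc.mon hc.deg
  have hirrD : Irreducible (fF (f.scaleRoots ((Dp J : ℕ) : 𝓞 F))) := by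
    rw [fF_scale hc.mon]
    exact irr_scale (Nat.cast_ne_zero.2 hD0) hirr
  obtain ⟨hroot, e, he⟩ := adj hc hirrD
  -- the big primes
  have huniq : ∀ q ∈ S, ∀ 𝔓 : HeightOneSpectrum (𝓞 L), Ov (𝔮 q) 𝔓 → 𝔓.valuation L θ = 1 →
      𝔓 = 𝔔 q := by
    intro q hq 𝔓 h1 h2
    obtain ⟨𝔓₁, 𝔓₂, a1, a2, a3, a4, a5, a6, a7⟩ :=
      hEXQ 1 W F L f θ S 𝔮 r P le_rfl hc hsq hS q hq (hcg q hq)
    have b1 : 𝔓 = 𝔓₂ := by
      rcases a7 𝔓 h1 with b | b
      · rw [b] at h2
        exact absurd h2 a3.ne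
      · exact b
    have b2 : 𝔔 q = 𝔓₂ := by
      rcases a7 _ (hQ q hq).1 with b | b
      · have := (hQ q hq).2
        rw [b] at this
        exact absurd this a3.ne
      · exact b
    rw [b1, b2]
  have hqL : ∀ q ∈ S, ∀ 𝔓 : HeightOneSpectrum (𝓞 L), Ov (𝔮 q) 𝔓 → (q : 𝓞 L) ∈ 𝔓.asIdeal := by
    intro q hq 𝔓 h1
    have h2 := h1 _ (hS q hq).2.2.2.2.2.2.1
    rwa [map_natCast] at h2
  have hcomp : aeval θ (h.comp (C ((Dp J : ℕ) : F) * X)) = aeval ((Dp J : L) * θ) h := by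
    rw [aeval_comp, map_mul, aeval_C, aeval_X, map_natCast]
  have hTR := hTR2 F f h (Dp J) hc.mon hc.deg hD8
  constructor
  · rintro ⟨hcop, hnorm, hloc, hlocR⟩
    have hnorm' : IsSquare (Algebra.norm F (aeval ((Dp J : L) * θ) h)) := by
      rw [← he, Algebra.norm_eq_of_algEquiv]
      exact hnorm
    obtain ⟨k1, k2, -, -⟩ := hLOC 1 W F L f f₁ θ S J 𝔮 r P le_rfl hc hsq hf₁ hS hW hcon hJ h hne
      hnorm' (fun w => hCLL _ _ _ (hloc w)) (fun σ => hCLL _ _ _ (hlocR σ))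
    refine ⟨⟨hne, hnorm', fun 𝔓 h1 => k1 𝔓 ?_, h.comp (C ((Dp J : ℕ) : F) * X), hcomp,
      fun w hw => (hTR.1 w hw).2 (hloc w), fun σ => (hTR.2 σ).2 (hlocR σ)⟩, ?_, ?_⟩
    · intro q hq h2 h3
      exact h1 q (hJ hq) (huniq q (hJ hq) 𝔓 h2 h3)
    · intro q hq
      have h1 := k2 q hq (𝔔 q) (hQ q (hJ hq)).1 (hQ q (hJ hq)).2
      rw [psi, if_pos (hJ hq)]
      simp only [if_pos h1]
    · intro q hq
      rw [psi]
      by_cases hqS : q ∈ S
      · rw [if_pos hqS]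
        have h1 : Ev (𝔔 q) (aeval ((Dp J : L) * θ) h) := by
          refine k1 (𝔔 q) fun q' hq' h2 h3 => ?_
          have hne' : q ≠ q' := by
            rintro rfl
            exact hq hq'
          exact one_mem (hqp q hqS) (hqp q' (hJ hq')) hne' (hqL q hqS _ (hQ q hqS).1)
            (hqL q' (hJ hq') _ h2)
        simp only [if_pos h1]
      · rw [if_neg hqS]
        rfl
  · rintro ⟨⟨-, hnorm, hEv, h₀, hh₀, hloc2, hlocR⟩, hW1, hW2⟩
    have hU0 : ∀ q ∈ J, U0 (𝔔 q) ((q : L) * θ) (aeval ((Dp J : L) * θ) h) := by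
      intro q hq
      have h1 := hW1 q hq
      rw [psi, if_pos (hJ hq)] at h1
      by_contra hcon'
      simp only [if_neg hcon'] at h1
      exact one_ne_zero h1
    have hEvS : ∀ q ∈ S, q ∉ J → Ev (𝔔 q) (aeval ((Dp J : L) * θ) h) := by
      intro q hq hqJ
      have h1 := hW2 q hqJ
      rw [psi, if_pos hq] at h1
      by_contra hcon'
      simp only [if_neg hcon'] at h1
      exact one_ne_zero h1
    have hdvd : fF f ∣ h.comp (C ((Dp J : ℕ) : F) * X) - h₀ := by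
      have h1 : minpoly F θ = fF f := by
        refine (minpoly.eq_of_irreducible_of_monic hirr hc.root (hc.mon.map _)).symm
      rw [← h1]
      refine minpoly.dvd F θ ?_
      rw [map_sub, hcomp, hh₀, sub_self]
    refine ⟨?_, ?_, ?_, ?_⟩
    · rw [isCoprime_comm, hirrD.coprime_iff_not_dvd]
      rintro ⟨c, hc'⟩
      apply hne
      rw [hc', map_mul, hroot, zero_mul]
    · rw [← he, Algebra.norm_eq_of_algEquiv] at hnorm
      exact hnorm
    · intro w
      by_cases h2 : (2 : 𝓞 F) ∈ w.asIdeal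
      · refine (hTR.1 w h2).1 (cl_congr (hloc2 w h2) ?_)
        rw [← Polynomial.map_sub]
        exact Polynomial.map_dvd _ hdvd
      · refine hCLW F L f θ hc hsq w h2 (Dp J) (Nat.pos_of_ne_zero hD0) h hne hnorm ?_
        by_cases hD : ((Dp J : ℕ) : 𝓞 F) ∈ w.asIdeal
        · -- a prime over `q ∈ J`
          obtain ⟨q, hq, hqw⟩ : ∃ q ∈ J, (q : 𝓞 F) ∈ w.asIdeal := by
            have h3 := w.isPrime
            rw [Dp, Nat.cast_prod, h3.prod_mem_iff] at hD
            exact hD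
          refine hSPX 1 W F L f θ S J 𝔮 r P le_rfl hc hsq hS hcon hJ q hq w hqw _ hne hnorm ?_
          intro 𝔓 h3 h4
          rw [huniq q (hJ hq) 𝔓 h3 h4]
          exact hU0 q hq
        · refine hGPX F L f θ hc hsq w h2 (Dp J) hD _ hne hnorm ?_
          intro 𝔓 h3
          by_cases h4 : ∀ q ∈ S, 𝔓 ≠ 𝔔 q
          · exact hEv 𝔓 h4
          · push Not at h4
            obtain ⟨q, hq, rfl⟩ := h4
            refine hEvS q hq fun hqJ => hD ?_
            -- `q` lies in `w`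
            have h5 : (q : 𝓞 L) ∈ (𝔔 q).asIdeal := hqL q hq _ (hQ q hq).1
            have h6 : (q : 𝓞 F) ∈ w.asIdeal := by
              by_contra h7
              haveI := w.isMaximal
              obtain ⟨y, i, hi, hy⟩ := w.isMaximal.exists_inv h7
              apply (𝔔 q).isPrime.ne_top
              rw [Ideal.eq_top_iff_one]
              have h8 := h3 i hi
              have h9 := congrArg (algebraMap (𝓞 F) (𝓞 L)) hy
              rw [map_add, map_mul, map_natCast, map_one] at h9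
              rw [← h9]
              exact Ideal.add_mem _ (Ideal.mul_mem_left _ _ h5) h8
            rw [Dp, Nat.cast_prod]
            rw [← Finset.mul_prod_erase J (fun q => ((q : ℕ) : 𝓞 F)) hqJ]
            exact Ideal.mul_mem_right _ _ h6
    · intro σ
      refine (hTR.2 σ).1 (cl_congr (hlocR σ) ?_)
      rw [← Polynomial.map_sub]
      exact Polynomial.map_dvd _ hdvd

end Pool.Agent.L0h3.SP
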